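import Pool.Agent.CYE.StmtsG

/-!
# Rows FI2 and FIK of squad CYE: there is no factorisation
-/

set_option autoImplicit false

open Polynomial IsLocalRing

namespace Pool.Agent.CYE.H81

open Pool.Agent.CYD Pool.Agent.CYE

/-- the number of the prime factors -/
theorem fm_card {p m : ℕ} {g h : ℤ[X]} (F : Fm p m g h) :
    (p * m).primeFactors.card = m.primeFactors.card + 1 ∧ 1 ≤ m.primeFactors.card ∧
      p * m ≤ p ^ (p * m).primeFactors.card := by
  have hm0 : m ≠ 0 := by
    have := F.hm
    omega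
  have hcop : p.Coprime m := by
    rw [Nat.Prime.coprime_iff_not_dvd F.hp]
    exact F.ndvd
  have h1 : (p * m).primeFactors = insert p m.primeFactors := by
    rw [Nat.primeFactors_mul F.hp.ne_zero hm0, F.hp.primeFactors, Finset.insert_eq]
  have h2 : p ∉ m.primeFactors := by
    intro hh
    exact F.ndvd (Nat.dvd_of_mem_primeFactors hh)
  have h3 : (p * m).primeFactors.card = m.primeFactors.card + 1 := by
    rw [h1, Finset.card_insert_of_notMem h2]
  refine ⟨h3, ?_, ?_⟩
  · rw [Nat.succ_le_iff, Finset.card_pos]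
    have : 1 < m := by
      have := F.hm
      omega
    exact Nat.nonempty_primeFactors.2 this
  · have h4 := Nat.prod_primeFactors_of_squarefree F.F.hs
    calc p * m = ∏ l ∈ (p * m).primeFactors, l := h4.symm
      _ ≤ ∏ _l ∈ (p * m).primeFactors, p := by
          apply Finset.prod_le_prod'
          intro l hl
          rw [h1, Finset.mem_insert] at hl
          rcases hl with hl | hl
          · exact hl.le
          · exact (F.hlt l (Nat.prime_of_mem_primeFactors hl)
              (Nat.dvd_of_mem_primeFactors hl)).le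
      _ = p ^ (p * m).primeFactors.card := by
          rw [Finset.prod_const]

/-- the numerical facts which are used -/
def Nuf (p m k J : ℕ) : Prop :=
  2 ^ (20 * k * 2 ^ k) ≤ p ∧ 1 ≤ J ∧ 128 * J ^ k * 2 ^ (10 * k * 2 ^ k) ≤ p ∧
    (∀ d c φ : ℕ, 1 ≤ φ → d ≤ p * c + 2 * φ →
      p * c ≤ 4 * J ^ k * 2 ^ (10 * k * 2 ^ k) * φ → 2 ^ ((p - 1) * φ) ≤ (p * m) ^ (6 * d) →
        False) ∧
    (∀ (M : ℕ), M ≤ 3 * m * 2 ^ (k - 1) * (2 ^ (5 * 2 ^ k)) ^ (k - 1) → 2 * M < 2 ^ J)

/-- the core of the argument -/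
theorem fi_core (hDeg : DegStmt) (hBaf : BafStmt) (hSie : SieStmt) (hTyc : TycStmt)
    (hDgb : DgbStmt) {p m : ℕ} {g h : ℤ[X]} (F : Fm p m g h) (k J : ℕ)
    (hk : k = (p * m).primeFactors.card) (hN : Nuf p m k J) : False := by
  classical
  obtain ⟨hN1, hN2, hN3, hN4, hN5⟩ := hN
  obtain ⟨hc1, hc2, -⟩ := fm_card F
  obtain ⟨-, -, -, hb4, hb5⟩ := hBaf p m g h F
  have hm1 : 1 ≤ m := le_trans (by norm_num) F.hm
  have hpos : p * m ≠ 0 := Nat.mul_ne_zero F.hp.ne_zero (by omega)
  have hne : NeZero (p * m) := ⟨hpos⟩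
  have key : ∀ (K : Type) [Field K] [NumberField K] [IsCyclotomicExtension {p * m} ℚ K],
      False := by
    intro K _ _ _
    obtain ⟨A, hA⟩ := CYE.exa K p F.hp
    have hζ : IsPrimitiveRoot (IsCyclotomicExtension.zeta (p * m) ℚ K) (p * m) :=
      IsCyclotomicExtension.zeta_spec (p * m) ℚ K
    have hmem : IsCyclotomicExtension.zeta (p * m) ℚ K ∈ A := by
      have hi : IsIntegral ℤ (IsCyclotomicExtension.zeta (p * m) ℚ K) :=
        hζ.isIntegral (Nat.pos_of_ne_zero hpos)
      have hi2 : IsIntegral A (IsCyclotomicExtension.zeta (p * m) ℚ K) := hi.tower_top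
      obtain ⟨y, hy⟩ := IsIntegrallyClosed.isIntegral_iff.mp hi2
      rw [← hy]; exact y.2
    obtain ⟨z, hzeq⟩ : ∃ z : A, (z : K) = IsCyclotomicExtension.zeta (p * m) ℚ K :=
      ⟨⟨_, hmem⟩, rfl⟩
    have hz : IsPrimitiveRoot z (p * m) := by
      refine IsPrimitiveRoot.of_map_of_injective (f := A.subtype) ?_ Subtype.coe_injective
      simp [hzeq, hζ]
    have hres : IsPrimitiveRoot (residue A z) m := by
      obtain ⟨c, w, hc, hw, hcw, hh⟩ := CYE.spl K A p m z F.hp hm1 F.ndvd hz
      exact (hh hA).2.2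
    have hchr : CharP (ResidueField A) p := by
      have h0 : ((p : ℕ) : ResidueField A) = 0 := by
        have h1 := (residue_eq_zero_iff (R := A) ((p : ℕ) : A)).2 hA
        rwa [map_natCast] at h1
      exact (CharP.charP_iff_prime_eq_zero F.hp).2 h0
    obtain ⟨α, hSit⟩ := hSie p m g h F (ResidueField A) (residue A z) hres
    have hfact : ∀ i : {l // l ∈ m.primeFactors}, Fact (i.1).Prime := fun i =>
      ⟨Nat.prime_of_mem_primeFactors i.2⟩
    have hfact' : ∀ i : {l // l ∈ m.primeFactors},
        Fact ((fun i : {l // l ∈ m.primeFactors} => i.1) i).Prime := hfact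
    obtain ⟨B, hB⟩ : ∃ B, B = 2 ^ (5 * 2 ^ k) := ⟨_, rfl⟩
    have hB1 : 1 ≤ B := by
      rw [hB]
      exact Nat.one_le_two_pow
    obtain ⟨sm, hsm⟩ : ∃ sm : List {l // l ∈ m.primeFactors},
        sm = (Finset.univ.filter fun i => i.1 < B).toList := ⟨_, rfl⟩
    obtain ⟨lg, hlg⟩ : ∃ lg : List {l // l ∈ m.primeFactors},
        lg = (Finset.univ.filter fun i => ¬ i.1 < B).toList := ⟨_, rfl⟩
    have hsm1 : ∀ i, i ∈ sm ↔ i.1 < B := by
      intro i
      rw [hsm, Finset.mem_toList, Finset.mem_filter]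
      exact ⟨fun h => h.2, fun h => ⟨Finset.mem_univ _, h⟩⟩
    have hlg1 : ∀ i, i ∈ lg ↔ ¬ i.1 < B := by
      intro i
      rw [hlg, Finset.mem_toList, Finset.mem_filter]
      exact ⟨fun h => h.2, fun h => ⟨Finset.mem_univ _, h⟩⟩
    have hnd : (sm ++ lg).Nodup := by
      rw [List.nodup_append]
      refine ⟨hsm ▸ Finset.nodup_toList _, hlg ▸ Finset.nodup_toList _, ?_⟩
      intro i hi j hj hij
      rw [hij] at hi
      exact (hlg1 j).1 hj ((hsm1 j).1 hi)
    have hall : ∀ i, i ∈ sm ++ lg := by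
      intro i
      rw [List.mem_append]
      by_cases hi : i.1 < B
      · exact Or.inl ((hsm1 i).2 hi)
      · exact Or.inr ((hlg1 i).2 hi)
    have hlen : (sm ++ lg).length = m.primeFactors.card := by
      rw [← List.toFinset_card_of_nodup hnd]
      have e : (sm ++ lg).toFinset = Finset.univ := by
        apply Finset.eq_univ_of_forall
        intro i
        rw [List.mem_toFinset]
        exact hall i
      rw [e, Finset.card_univ, Fintype.card_coe]
    have hk' : k = (sm ++ lg).length + 1 := by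
      rw [hlen, hk, hc1]
    have hMT : MT (fun i : {l // l ∈ m.primeFactors} => i.1) m (ops sm lg) ≤
        3 * m * 2 ^ (k - 1) * (2 ^ (5 * 2 ^ k)) ^ (k - 1) := by
      unfold MT
      rw [← hB, mul_assoc (3 * m), ← mul_pow]
      apply Nat.mul_le_mul (Nat.mul_le_mul_left 3 (Nat.totient_le m))
      have h1 := List.prod_le_pow_card ((ops sm lg).map
        (fun x : {l // l ∈ m.primeFactors} × Bool => if x.2 then 1 + x.1.1 else 2)) (2 * B) (by
          intro y hy
          rw [List.mem_map] at hy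
          obtain ⟨x, hx, rfl⟩ := hy
          unfold ops at hx
          rw [List.mem_append, List.mem_map, List.mem_map] at hx
          rcases hx with ⟨i, hi, rfl⟩ | ⟨i, hi, rfl⟩
          · have h2 := (hsm1 i).1 hi
            simp only [if_true]
            omega
          · simp only [Bool.false_eq_true, if_false]
            omega)
      have h2 : ((ops sm lg).map
          (fun x : {l // l ∈ m.primeFactors} × Bool => if x.2 then 1 + x.1.1 else 2)).length =
          k - 1 := by
        rw [List.length_map]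
        unfold ops
        rw [List.length_append, List.length_map, List.length_map, hk', List.length_append,
          Nat.add_sub_cancel]
      rw [h2] at h1
      exact h1
    obtain ⟨x, hx⟩ := hTyc {l // l ∈ m.primeFactors} (fun i => i.1) p m k J g h K A z α hA hz hSit
      sm lg hnd hall hk' (fun i hi => by rw [← hB]; exact (hsm1 i).1 hi)
      (fun i hi => by rw [← hB]; exact not_lt.1 ((hlg1 i).1 hi)) hN1 hN2 (hN5 _ hMT) hN3
    obtain ⟨hd1, hd2⟩ := hDgb {l // l ∈ m.primeFactors} (fun i => i.1) p m g h (ResidueField A)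
      (residue A z) α hSit
    have hφ : 1 ≤ m.totient := by omega
    cases x with
    | false =>
      have h1 := hDeg (p * m) g h F.F
      rw [hb5] at h1
      exact hN4 _ _ _ hφ hd1 hx h1
    | true =>
      have h1 := hDeg (p * m) h g F.F.swap
      rw [hb5] at h1
      exact hN4 _ _ _ hφ hd2 hx h1
  have hneQ : NeZero ((p * m : ℕ) : ℚ) := ⟨by exact_mod_cast hpos⟩
  have hI : @IsCyclotomicExtension {p * m} ℚ (CyclotomicField (p * m) ℚ) _ _
      DivisionRing.toRatAlgebra := by
    have e : (DivisionRing.toRatAlgebra : Algebra ℚ (CyclotomicField (p * m) ℚ)) =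
        CyclotomicField.algebra (p * m) ℚ := Subsingleton.elim _ _
    rw [e]
    exact CyclotomicField.isCyclotomicExtension (p * m) ℚ
  exact key (CyclotomicField (p * m) ℚ)

theorem fik (hDeg : DegStmt) (hBaf : BafStmt) (hSie : SieStmt) (hTyc : TycStmt)
    (hDgb : DgbStmt) (hNum : NumStmt) : FikStmt := by
  intro p m g h F
  by_contra hlt
  push Not at hlt
  obtain ⟨hc1, hc2, hc3⟩ := fm_card F
  refine fi_core hDeg hBaf hSie hTyc hDgb F (p * m).primeFactors.card
    ((p * m).primeFactors.card * (Nat.log 2 p + 1) +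
      5 * (p * m).primeFactors.card * 2 ^ (p * m).primeFactors.card) rfl ?_
  exact hNum p m (p * m) (p * m).primeFactors.card _ (by omega) rfl hlt hc3 rfl

theorem fi2 (hDeg : DegStmt) (hBaf : BafStmt) (hSie : SieStmt) (hTyc : TycStmt)
    (hDgb : DgbStmt) (hNu2 : Nu2Stmt) : Fi2Stmt := by
  intro p m g h F
  by_contra hlt
  push Not at hlt
  obtain ⟨hc1, hc2, hc3⟩ := fm_card F
  refine fi_core hDeg hBaf hSie hTyc hDgb F (p * m).primeFactors.card
    ((p * m).primeFactors.card * (Nat.log 2 p + 1) +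
      5 * (p * m).primeFactors.card * 2 ^ (p * m).primeFactors.card) rfl ?_
  exact hNu2 p m (p * m) (p * m).primeFactors.card _ (by omega) rfl hlt hc3 rfl

end Pool.Agent.CYE.H81
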