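import Pool.Agent.CYE.StmtsD

/-!
# Row GEN of squad CYE: most shift vectors are generic
-/

set_option autoImplicit false

open Polynomial IsLocalRing

namespace Pool.Agent.CYE.H81

open Pool.Agent.CYD Pool.Agent.CYE

/-- the three values of `k` -/
def kk (m : ℕ) (j : Fin 3) : ℕ := if j = 0 then 1 else if j = 1 then 2 else m.minFac - 1

/-- the three values of the coefficients -/
def vv (j : Fin 3) : ℤ := if j = 0 then 0 else if j = 1 then 1 else -1

theorem vv_surj {e : ℤ} (h : e = 0 ∨ e = 1 ∨ e = -1) : ∃ j, vv j = e := by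
  rcases h with rfl | rfl | rfl
  · exact ⟨0, rfl⟩
  · exact ⟨1, rfl⟩
  · exact ⟨2, rfl⟩

theorem kk_surj {m k : ℕ} (h : k = 1 ∨ k = 2 ∨ k = m.minFac - 1) : ∃ j, kk m j = k := by
  rcases h with rfl | rfl | rfl
  · exact ⟨0, rfl⟩
  · exact ⟨1, rfl⟩
  · exact ⟨2, rfl⟩

theorem kk_eq (m : ℕ) (j : Fin 3) : kk m j = 1 ∨ kk m j = 2 ∨ kk m j = m.minFac - 1 := by
  unfold kk
  split_ifs
  · exact Or.inl rfl
  · exact Or.inr (Or.inl rfl)
  · exact Or.inr (Or.inr rfl)

theorem gen (hSwz : SwzStmt) : GenStmt := by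
  intro ι _ _ q _ p m g h L _ a α hSit lg hnd S hS
  classical
  obtain ⟨αα, hαα⟩ : ∃ αα : Bool → ι → L, αα true = α ∧ αα false = fun i => (α i)⁻¹ :=
    ⟨fun b => if b then α else fun i => (α i)⁻¹, rfl, rfl⟩
  have hαp : ∀ b i, IsPrimitiveRoot (αα b i) (q i) := by
    intro b i
    cases b
    · rw [hαα.2]
      exact (hSit.pri i).inv
    · rw [hαα.1]
      exact hSit.pri i
  obtain ⟨w, hw⟩ : ∃ w : Fin 3 × Bool × (↥(lg.toFinset.powerset) → Fin 3 × Fin 3) → Finset ι → L,
      ∀ x T, ∀ hT : T ∈ lg.toFinset.powerset, w x T =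
        ((vv (x.2.2 ⟨T, hT⟩).1 : ℤ) : L) * co L m (Vm L m) (kk m x.1) +
          ((vv (x.2.2 ⟨T, hT⟩).2 : ℤ) : L) * co L m (Wm L m) (kk m x.1) :=
    ⟨fun x T => if hT : T ∈ lg.toFinset.powerset then
        ((vv (x.2.2 ⟨T, hT⟩).1 : ℤ) : L) * co L m (Vm L m) (kk m x.1) +
          ((vv (x.2.2 ⟨T, hT⟩).2 : ℤ) : L) * co L m (Wm L m) (kk m x.1) else 0,
      fun x T hT => dif_pos hT⟩
  obtain ⟨SI, hSI⟩ : ∃ SI : Fin 3 × Bool × (↥(lg.toFinset.powerset) → Fin 3 × Fin 3) →
      Finset (Pt q), ∀ x s, s ∈ SI x ↔ (w x ∅ ≠ 0 ∧ s ∈ Sv q lg ∧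
        ∑ T ∈ lg.toFinset.powerset, (-1) ^ T.card *
          (w x T * ∏ i ∈ T, (αα x.2.1 i ^ (s i).val) ^ (kk m x.1)) = 0) :=
    ⟨fun x => if w x ∅ ≠ 0 then (Sv q lg).filter (fun s =>
        ∑ T ∈ lg.toFinset.powerset, (-1) ^ T.card *
          (w x T * ∏ i ∈ T, (αα x.2.1 i ^ (s i).val) ^ (kk m x.1)) = 0) else ∅, fun x s => by
      dsimp only
      split_ifs with h1
      · rw [Finset.mem_filter]
        exact ⟨fun h2 => ⟨h1, h2⟩, fun h2 => h2.2⟩
      · exact ⟨fun h2 => absurd h2 (Finset.notMem_empty s), fun h2 => absurd h2.1 h1⟩⟩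
  have hqm : ∀ i, q i ∣ m := fun i => by
    rw [← hSit.prod]
    exact Finset.dvd_prod_of_mem q (Finset.mem_univ i)
  have hm3 := hSit.F.hm
  have hodd := hSit.F.odd
  have hmf : m.minFac.Prime := Nat.minFac_prime (by omega)
  have hk : ∀ j : Fin 3, ∀ i, ¬ q i ∣ kk m j := by
    intro j i hd
    have hqi := hSit.hq i
    rcases kk_eq m j with h1 | h1 | h1
    · rw [h1, Nat.dvd_one] at hd
      exact hqi.one_lt.ne' hd
    · rw [h1] at hd
      have h2 : q i = 2 := (Nat.prime_dvd_prime_iff_eq hqi Nat.prime_two).1 hd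
      have h3 := hqm i
      rw [h2] at h3
      exact (Nat.not_even_iff_odd.2 hodd) (even_iff_two_dvd.2 h3)
    · rw [h1] at hd
      have h2 := Nat.minFac_le_of_dvd hqi.two_le (hqm i)
      have h3 := hmf.two_le
      have h4 := Nat.le_of_dvd (by omega) hd
      omega
  have hbd : ∀ x, ((SI x).card : ℝ) ≤
      (lg.map fun i => (1 : ℝ) / (q i - 1)).sum * (Sv q lg).card := by
    intro x
    by_cases h1 : w x ∅ ≠ 0
    · refine hSwz ι q L (αα x.2.1) (hαp x.2.1) lg hnd (kk m x.1) (fun i _ => hk x.1 i) (w x) h1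
        (SI x) ?_
      intro s hs
      exact ((hSI x s).1 hs).2
    · have h2 : SI x = ∅ := by
        rw [Finset.eq_empty_iff_forall_notMem]
        intro s hs
        exact h1 ((hSI x s).1 hs).1
      rw [h2, Finset.card_empty, Nat.cast_zero]
      apply mul_nonneg
      · apply List.sum_nonneg
        intro y hy
        rw [List.mem_map] at hy
        obtain ⟨i, -, rfl⟩ := hy
        have h3 : (1 : ℝ) ≤ q i := by exact_mod_cast (hSit.hq i).one_lt.le
        apply div_nonneg zero_le_one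
        linarith
      · exact Nat.cast_nonneg _
  have hcov : S ⊆ Finset.univ.biUnion SI := by
    intro s hs
    obtain ⟨h1, h2⟩ := hS s hs
    unfold Gen at h2
    push Not at h2
    obtain ⟨k, hk', e, e', hee, hne, h3⟩ := h2
    obtain ⟨j, hj⟩ := kk_surj hk'
    choose f hf using fun T => vv_surj (hee T).1
    choose f' hf' using fun T => vv_surj (hee T).2
    have hwx : ∀ b : Bool, ∀ T ∈ lg.toFinset.powerset,
        w (j, b, fun T => (f T.1, f' T.1)) T =
          (e T : L) * co L m (Vm L m) k + (e' T : L) * co L m (Wm L m) k := by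
      intro b T hT
      rw [hw _ T hT]
      dsimp only
      rw [hf, hf', hj]
    rw [Finset.mem_biUnion]
    by_cases h4 : (∑ T ∈ lg.toFinset.powerset, (-1) ^ T.card *
      (((e T : L) * co L m (Vm L m) k + (e' T : L) * co L m (Wm L m) k) *
        ∏ i ∈ T, (α i ^ (s i).val) ^ k) = 0)
    · refine ⟨(j, true, fun T => (f T.1, f' T.1)), Finset.mem_univ _, ?_⟩
      rw [hSI]
      refine ⟨?_, h1, ?_⟩
      · rw [hwx true ∅ (Finset.empty_mem_powerset _)]
        exact hne
      · rw [← h4]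
        refine Finset.sum_congr rfl fun T hT => ?_
        rw [hwx true T hT]
        dsimp only
        rw [hαα.1, hj]
    · refine ⟨(j, false, fun T => (f T.1, f' T.1)), Finset.mem_univ _, ?_⟩
      rw [hSI]
      refine ⟨?_, h1, ?_⟩
      · rw [hwx false ∅ (Finset.empty_mem_powerset _)]
        exact hne
      · rw [← h3 h4]
        refine Finset.sum_congr rfl fun T hT => ?_
        rw [hwx false T hT]
        dsimp only
        rw [hαα.2, hj]
  have hcard : Fintype.card (Fin 3 × Bool × (↥(lg.toFinset.powerset) → Fin 3 × Fin 3)) =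
      6 * 9 ^ (2 ^ lg.length) := by
    rw [Fintype.card_prod, Fintype.card_prod, Fintype.card_fun, Fintype.card_coe,
      Finset.card_powerset, List.toFinset_card_of_nodup hnd, Fintype.card_prod, Fintype.card_fin,
      Fintype.card_bool]
    ring
  calc (S.card : ℝ) ≤ ((Finset.univ.biUnion SI).card : ℝ) := by
        exact_mod_cast Finset.card_le_card hcov
    _ ≤ ∑ x, ((SI x).card : ℝ) := by exact_mod_cast Finset.card_biUnion_le
    _ ≤ ∑ _x : Fin 3 × Bool × (↥(lg.toFinset.powerset) → Fin 3 × Fin 3),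
        (lg.map fun i => (1 : ℝ) / (q i - 1)).sum * (Sv q lg).card :=
        Finset.sum_le_sum fun x _ => hbd x
    _ = _ := by
        rw [Finset.sum_const, Finset.card_univ, hcard, nsmul_eq_mul]
        push_cast
        ring

end Pool.Agent.CYE.H81
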