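import Pool.Agent.CYE.StmtsB

/-!
# Row SPO of squad CYE: degrees and simple poles of the iterated differences
-/

set_option autoImplicit false

open Polynomial IsLocalRing

namespace Pool.Agent.CYE.H81

open Pool.Agent.CYD Pool.Agent.CYE

section pol

variable {L : Type} [Field L]

/-- `N / P` has at most a simple pole more than ... at `1` -/
def SPr (N P : L[X]) : Prop :=
  ∃ (r : ℕ) (Q : L[X]), P = (X - 1) ^ r * Q ∧ Q.eval 1 ≠ 0 ∧ (X - 1) ^ r ∣ (X - 1) * N

theorem SPr.fin {N P : L[X]} (h : SPr N P) : (X - 1) ^ rootMultiplicity 1 P ∣ (X - 1) * N := by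
  obtain ⟨r, Q, hP, hQ, hN⟩ := h
  have h0 : P ≠ 0 := by
    intro h0
    rw [h0] at hP
    have hQ0 : Q ≠ 0 := fun h => hQ (by rw [h, eval_zero])
    have hX : (X - 1 : L[X]) ^ r ≠ 0 := pow_ne_zero _ (by
      have := X_sub_C_ne_zero (1 : L)
      rwa [C_1] at this)
    exact mul_ne_zero hX hQ0 hP.symm
  have h1 : rootMultiplicity 1 P = r := by
    have hle : r ≤ rootMultiplicity 1 P := by
      rw [le_rootMultiplicity_iff h0, C_1, hP]
      exact Dvd.intro _ rfl
    have hge : rootMultiplicity 1 P ≤ r := by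
      by_contra hlt
      push Not at hlt
      have h2 : (X - C (1 : L)) ^ (r + 1) ∣ P := (le_rootMultiplicity_iff h0).1 hlt
      rw [C_1, hP, pow_succ] at h2
      have h3 : (X - 1 : L[X]) ∣ Q := by
        obtain ⟨Z, hZ⟩ := h2
        refine ⟨Z, ?_⟩
        have hX : (X - 1 : L[X]) ^ r ≠ 0 := pow_ne_zero _ (by
          have := X_sub_C_ne_zero (1 : L)
          rwa [C_1] at this)
        apply mul_left_cancel₀ hX
        rw [hZ, mul_assoc]
      obtain ⟨Z, hZ⟩ := h3
      apply hQ
      rw [hZ, eval_mul, eval_sub, eval_X, eval_one, sub_self, zero_mul]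
    exact le_antisymm hge hle
  rw [h1]
  exact hN

theorem SPr.expand {N P : L[X]} (h : SPr N P) {q : ℕ} (hq : (q : L) ≠ 0) :
    SPr (Polynomial.expand L q N) (Polynomial.expand L q P) := by
  obtain ⟨r, Q, hP, hQ, hN⟩ := h
  obtain ⟨c, hc⟩ : ∃ c : L[X], c = ∑ i ∈ Finset.range q, X ^ i := ⟨_, rfl⟩
  have hc1 : c.eval 1 = q := by
    rw [hc, eval_finsetSum]
    simp
  have hcX : Polynomial.expand L q (X - 1) = (X - 1) * c := by
    rw [map_sub, expand_X, map_one, hc, mul_comm, geom_sum_mul]
  refine ⟨r, c ^ r * Polynomial.expand L q Q, ?_, ?_, ?_⟩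
  · rw [hP, map_mul, map_pow, hcX, mul_pow, mul_assoc]
  · rw [eval_mul, eval_pow, hc1, expand_eval, one_pow]
    exact mul_ne_zero (pow_ne_zero _ hq) hQ
  · have h1 : Polynomial.expand L q ((X - 1) ^ r) ∣ Polynomial.expand L q ((X - 1) * N) :=
      map_dvd _ hN
    rw [map_pow, map_mul, hcX, mul_pow] at h1
    have h2 : (X - 1 : L[X]) ^ r ∣ c * ((X - 1) * Polynomial.expand L q N) := by
      have h3 := (Dvd.intro _ rfl : (X - 1 : L[X]) ^ r ∣ (X - 1) ^ r * c ^ r).trans h1
      have h4 : (X - 1) * c * Polynomial.expand L q N =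
          c * ((X - 1) * Polynomial.expand L q N) := by ring
      rwa [h4] at h3
    have hco : IsCoprime ((X - 1 : L[X]) ^ r) c := by
      apply IsCoprime.pow_left
      have h5 := (irreducible_X_sub_C (1 : L)).coprime_iff_not_dvd (n := c)
      rw [C_1] at h5
      rw [h5]
      rintro ⟨Z, hZ⟩
      apply hq
      rw [← hc1, hZ, eval_mul, eval_sub, eval_X, eval_one, sub_self, zero_mul]
    exact hco.dvd_of_dvd_mul_left h2

theorem SPr.diff {N₁ P₁ N₀ P₀ : L[X]} (h₁ : SPr N₁ P₁) (h₀ : SPr N₀ P₀) (c : L) :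
    SPr (C c * N₁ * P₀ - N₀ * P₁) (P₁ * P₀) := by
  obtain ⟨r, Q, hP, hQ, hN⟩ := h₁
  obtain ⟨r', Q', hP', hQ', hN'⟩ := h₀
  refine ⟨r + r', Q * Q', ?_, ?_, ?_⟩
  · rw [hP, hP', pow_add]
    ring
  · rw [eval_mul]
    exact mul_ne_zero hQ hQ'
  · have e : (X - 1) * (C c * N₁ * P₀ - N₀ * P₁) =
        C c * (((X - 1) * N₁) * P₀) - ((X - 1) * N₀) * P₁ := by ring
    rw [e]
    apply dvd_sub
    · apply Dvd.dvd.mul_left
      rw [pow_add]
      apply mul_dvd_mul hN
      rw [hP']
      exact Dvd.intro _ rfl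
    · rw [pow_add, mul_comm]
      apply mul_dvd_mul hN'
      rw [hP]
      exact Dvd.intro _ rfl

/-- all properties together -/
def GG (M : ℕ) (N P : L[X]) : Prop :=
  N.natDegree ≤ M ∧ P.natDegree ≤ M ∧ P.coeff 0 ≠ 0 ∧ SPr N P

theorem GG.expand {M : ℕ} {N P : L[X]} (h : GG M N P) {q : ℕ} (hq : (q : L) ≠ 0) :
    GG (q * M) (Polynomial.expand L q N) (Polynomial.expand L q P) := by
  obtain ⟨h1, h2, h3, h4⟩ := h
  have hq0 : 0 < q := by
    rcases Nat.eq_zero_or_pos q with h0 | h0
    · exact absurd (by rw [h0, Nat.cast_zero]) hq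
    · exact h0
  refine ⟨?_, ?_, ?_, h4.expand hq⟩
  · rw [natDegree_expand, mul_comm]
    exact Nat.mul_le_mul_left _ h1
  · rw [natDegree_expand, mul_comm]
    exact Nat.mul_le_mul_left _ h2
  · have h5 := coeff_expand_mul hq0 P 0
    rw [Nat.zero_mul] at h5
    rw [h5]
    exact h3

theorem GG.diff {M₁ M₀ : ℕ} {N₁ P₁ N₀ P₀ : L[X]} (h₁ : GG M₁ N₁ P₁) (h₀ : GG M₀ N₀ P₀) (c : L) :
    GG (M₁ + M₀) (C c * N₁ * P₀ - N₀ * P₁) (P₁ * P₀) := by
  obtain ⟨a1, a2, a3, a4⟩ := h₁
  obtain ⟨b1, b2, b3, b4⟩ := h₀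
  refine ⟨?_, ?_, ?_, a4.diff b4 c⟩
  · refine (natDegree_sub_le _ _).trans (max_le ?_ ?_)
    · refine natDegree_mul_le.trans (add_le_add ?_ b2)
      exact (natDegree_C_mul_le _ _).trans a1
    · refine natDegree_mul_le.trans ?_
      rw [add_comm M₁ M₀]
      exact add_le_add b1 a2
  · exact natDegree_mul_le.trans (add_le_add a2 b2)
  · rw [mul_coeff_zero]
    exact mul_ne_zero a3 b3

end pol

theorem spo (hEvl : EvlStmt) (hAff : AffStmt) : SpoStmt := by
  intro ι _ _ q _ p m g h L _ a α hSit
  classical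
  have hchr := hSit.chr
  obtain ⟨hD0, hDc, hDd, -, hAm, -, -, -⟩ := hAff p m g h hSit.F L
  obtain ⟨-, -, -, -, -, hprim⟩ := hEvl ι q L α hSit.pri hSit.inj
  have hm0 : ((m : ℕ) : L) ≠ 0 := by
    intro h0
    exact hSit.F.ndvd ((CharP.cast_eq_zero_iff L p m).1 h0)
  have hNZ : NeZero ((m : ℕ) : L) := ⟨hm0⟩
  have hm3 := hSit.F.hm
  have hqL : ∀ i, ((q i : ℕ) : L) ≠ 0 := by
    intro i h0
    have h1 := (CharP.cast_eq_zero_iff L p (q i)).1 h0
    have hqm : q i ∣ m := by
      rw [← hSit.prod]
      exact Finset.dvd_prod_of_mem q (Finset.mem_univ i)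
    exact hSit.F.ndvd (h1.trans hqm)
  -- multiplication by `q i`
  have hqj : ∀ i j, j ≠ i → ((q i : ℕ) : ZMod (q j)) ≠ 0 := by
    intro i j hij h0
    have h1 := (ZMod.natCast_eq_zero_iff _ _).1 h0
    exact hij (hSit.inj ((Nat.prime_dvd_prime_iff_eq (hSit.hq j) (hSit.hq i)).1 h1))
  -- the start
  have hroot : ∀ x : L, IsPrimitiveRoot x m → (cyclotomic m L).eval x = 0 ∧
      (derivative (cyclotomic m L)).eval x ≠ 0 := by
    intro x hx
    have h1 : (cyclotomic m L).eval x = 0 := (isRoot_cyclotomic_iff).2 hx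
    refine ⟨h1, ?_⟩
    have h2 := (separable_cyclotomic m L).eval₂_derivative_ne_zero (RingHom.id L)
      (x := x) (by rw [eval₂_id]; exact h1)
    rwa [eval₂_id] at h2
  have hbase : ∀ b : Pt q, (∀ i, b i ≠ 0) →
      GG (3 * m.totient) (Ax m g h (ev α b)) (Bx m (ev α b)) := by
    intro b hb
    have hx := hprim b hb
    rw [hSit.prod] at hx
    obtain ⟨x, hxd⟩ : ∃ x, x = ev α b := ⟨_, rfl⟩
    rw [← hxd] at hx ⊢
    have hx0 : x ≠ 0 := hx.ne_zero (by omega)
    obtain ⟨hr1, hr2⟩ := hroot x hx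
    obtain ⟨-, hr4⟩ := hroot x⁻¹ hx.inv
    have hrev : ((derivative (cyclotomic m L)).reverse).eval x ≠ 0 := by
      intro h0
      apply hr4
      let _ : Invertible (x⁻¹) := invertibleOfNonzero (inv_ne_zero hx0)
      have h1 := (eval₂_reverse_eq_zero_iff (RingHom.id L) x⁻¹ (derivative (cyclotomic m L)))
      rw [eval₂_id, eval₂_id, invOf_eq_inv, inv_inv] at h1
      exact h1.1 h0
    have hdeg : ∀ f : L[X], (f.comp (C x * X)).natDegree ≤ f.natDegree := by
      intro f
      refine natDegree_comp_le.trans ?_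
      have h1 : (C x * X : L[X]).natDegree ≤ 1 := (natDegree_C_mul_le x X).trans natDegree_X_le
      calc f.natDegree * (C x * X : L[X]).natDegree ≤ f.natDegree * 1 :=
            Nat.mul_le_mul_left _ h1
        _ = f.natDegree := mul_one _
    refine ⟨?_, ?_, ?_, ?_⟩
    · exact (hdeg _).trans (hAm _ _)
    · exact (hdeg _).trans hDd
    · unfold Bx
      rw [coeff_zero_eq_eval_zero, eval_comp, eval_mul, eval_X, mul_zero,
        ← coeff_zero_eq_eval_zero]
      exact hDc
    · -- the simple zero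
      obtain ⟨S, hS⟩ : (X - C x) ∣ cyclotomic m L := dvd_iff_isRoot.2 hr1
      have hSx : S.eval x ≠ 0 := by
        intro h0
        apply hr2
        rw [hS, derivative_mul, eval_add, eval_mul, eval_mul, h0, mul_zero, eval_sub, eval_X,
          eval_C, sub_self, zero_mul, add_zero]
      refine ⟨1, C x * ((S * derivative (cyclotomic m L) *
        (derivative (cyclotomic m L)).reverse).comp (C x * X)), ?_, ?_, ?_⟩
      · unfold Bx Dl
        obtain ⟨D, hD⟩ : ∃ D, D = derivative (cyclotomic m L) := ⟨_, rfl⟩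
        rw [← hD]
        rw [hS, mul_comp, mul_comp, mul_comp, mul_comp, mul_comp, sub_comp, X_comp, C_comp, pow_one]
        ring
      · rw [eval_mul, eval_C, eval_comp, eval_mul, eval_mul, eval_mul, eval_C, eval_X, mul_one]
        exact mul_ne_zero hx0 (mul_ne_zero (mul_ne_zero hSx hr2) hrev)
      · rw [pow_one]
        exact Dvd.intro _ rfl
  -- the induction
  have hmain : ∀ (T : List (ι × Bool)), (T.map Prod.fst).Nodup → ∀ b s : Pt q, (∀ i, b i ≠ 0) →
      (∀ i, (i, false) ∈ T → b i + s i ≠ 0) →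
      GG (MT q m T) (FN m g h α T b s).1 (FN m g h α T b s).2 := by
    intro T
    induction T with
    | nil =>
      intro _ b s hb _
      have h1 := hbase b hb
      have e : MT q m [] = 3 * m.totient := by
        unfold MT
        simp
      rw [e]
      exact h1
    | cons x t ih =>
      obtain ⟨i, c⟩ := x
      intro hnd b s hb hbs
      rw [List.map_cons, List.nodup_cons] at hnd
      obtain ⟨hit, hnt⟩ := hnd
      have hne : ∀ j, (j, false) ∈ t → j ≠ i := by
        intro j hj hji
        apply hit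
        have := List.mem_map_of_mem (f := Prod.fst) hj
        rw [← hji]
        exact this
      have h0 := ih hnt b s hb (fun j hj => hbs j (List.mem_cons_of_mem _ hj))
      cases c with
      | true =>
        have h1 := ih hnt (fr i b) (fr i s) (by
          intro j
          unfold fr
          by_cases hj : j = i
          · rw [if_pos hj]
            exact hb j
          · rw [if_neg hj]
            exact mul_ne_zero (hqj i j hj) (hb j)) (by
          intro j hj
          unfold fr
          rw [if_neg (hne j hj), if_neg (hne j hj), ← mul_add]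
          exact mul_ne_zero (hqj i j (hne j hj)) (hbs j (List.mem_cons_of_mem _ hj)))
        have h2 := (h1.expand (hqL i)).diff h0 (q i : L)
        have e : MT q m ((i, true) :: t) = q i * MT q m t + MT q m t := by
          unfold MT
          rw [List.map_cons, List.prod_cons]
          simp only [if_true]
          ring
        rw [e]
        exact h2
      | false =>
        have hii := hbs i List.mem_cons_self
        have h1 := ih hnt (sh i s b) s (by
          intro j
          unfold sh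
          by_cases hj : j = i
          · rw [if_pos hj]
            rw [hj]
            exact hii
          · rw [if_neg hj]
            exact hb j) (by
          intro j hj
          unfold sh
          rw [if_neg (hne j hj)]
          exact hbs j (List.mem_cons_of_mem _ hj))
        have h2 := h1.diff h0 1
        rw [C_1, one_mul] at h2
        have e : MT q m ((i, false) :: t) = MT q m t + MT q m t := by
          unfold MT
          rw [List.map_cons, List.prod_cons]
          simp only [Bool.false_eq_true, if_false]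
          ring
        rw [e]
        exact h2
  intro T hnd b s hb hbs
  obtain ⟨h1, h2, h3, h4⟩ := hmain T hnd b s hb hbs
  refine ⟨h1, h2, h3, ?_, h4.fin⟩
  intro h0
  apply h3
  rw [h0, coeff_zero]

end Pool.Agent.CYE.H81
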